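import Mathlib
import Pool.Agent.H10.StackDefs
import Pool.Agent.H10.Stack

set_option autoImplicit false

namespace Pool.Agent.Results.MP_1611d4_co.StackVD

open Pool.Agent.H10.Stack in
/-- If stacking all facets of a finite simplicial complex (with distinct new vertices) gives a
vertex-decomposable complex, then the complex is shellable. -/
theorem result {V : Type} [DecidableEq V] (K : Set (Finset V)) (hK : IsCx K) (w : Finset V → V)
    (hi : ∀ F G, Facet K F → Facet K G → w F = w G → F = G) (hn : ∀ F, Facet K F → {w F} ∉ K)
    (h : VD (stack K w)) : Shellable K :=
  shellable_of_vd K hK w hi hn h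

end Pool.Agent.Results.MP_1611d4_co.StackVD
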